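import Pool.Agent.H31Z.SS.Surj

/-!
# Martin's axiom yields an uncountable strongly surjective set of reals

Under `MA_{ℵ₁}` every set of reals of size `ℵ₁` closed under rational translations is strongly
surjective (`H31Z.SS.stronglySurjective`): for a nonempty `K ⊆ L` a `σ`-linked partial order of
finite approximations adds an increasing map `x ↦ x + r x` from `K` to `L` together with a monotone
left inverse `L → K`.
-/

set_option autoImplicit false

namespace Pool.Agent.Results.MP_841ff5_lc.RealUnderMA

open H31Z.SS Pool.Agent.Helper292.ForceCH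

theorem result : MA → ∃ L : Set ℝ, ¬ L.Countable ∧ StronglySurjective L := by
  intro h
  have h1 : Cardinal.mk Om ≤ Cardinal.mk ℝ := by
    have h4 : Cardinal.mk Om = Cardinal.aleph 1 := by simp
    rw [h4, Cardinal.mk_real]
    exact Cardinal.aleph_one_le_continuum
  obtain ⟨e⟩ := Cardinal.le_def _ _ |>.1 h1
  refine ⟨Tr e, fun hc => om_uncountable ?_, tr_surj h.mal e⟩
  refine Set.countable_of_injective_of_countable_image (f := e) e.injective.injOn (hc.mono ?_)
  rintro _ ⟨a, -, rfl⟩
  exact ⟨a, 0, by simp⟩

end Pool.Agent.Results.MP_841ff5_lc.RealUnderMA
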